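import Mathlib

set_option autoImplicit false

/-!
# Product intersection sets: the greedy construction

For an infinite countable group and a suitable element `g₀` there is a set `A` with `g₀ ∉ A ^ 2` and
`A ^ 3 = G`.
-/

namespace Pool.Agent.V5helper44.PI

open scoped Pointwise

universe u

variable {G : Type u} [Group G]

/-- the element `g₀` can be avoided by all the products of two factors from a triple with a
prescribed product -/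
def Good (g₀ : G) : Prop :=
  ∀ (g : G) (K₁ : Set G), K₁.Finite → ∃ x, x ∉ K₁ ∧ x * x ≠ g₀ ∧ ∀ K₂ : Set G, K₂.Finite →
    ∃ y, y ∉ K₂ ∧ y * y ≠ g₀ ∧ ((x * y)⁻¹ * g) * ((x * y)⁻¹ * g) ≠ g₀ ∧
      ((x * y)⁻¹ * g) * y ≠ g₀

theorem step {g₀ : G} (h : Good g₀) (B : Set G) (hB : B.Finite)
    (hBB : ∀ a ∈ B, ∀ b ∈ B, a * b ≠ g₀) (g : G) :
    ∃ B' : Set G, B'.Finite ∧ B ⊆ B' ∧ (∀ a ∈ B', ∀ b ∈ B', a * b ≠ g₀) ∧
      ∃ x ∈ B', ∃ y ∈ B', ∃ z ∈ B', x * y * z = g := by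
  obtain ⟨x, hx1, hx2, hx⟩ := h g
    ((fun b => g₀ * b⁻¹) '' B ∪ (fun b => b⁻¹ * g₀) '' B ∪ {g * g₀⁻¹})
    (((hB.image _).union (hB.image _)).union (Set.finite_singleton _))
  have x1 : ∀ b ∈ B, x * b ≠ g₀ := by
    intro b hb h1
    exact hx1 (Or.inl (Or.inl ⟨b, hb, by simp [← h1]⟩))
  have x2 : ∀ b ∈ B, b * x ≠ g₀ := by
    intro b hb h1
    exact hx1 (Or.inl (Or.inr ⟨b, hb, by simp [← h1]⟩))
  have x3 : x⁻¹ * g ≠ g₀ := by
    intro h1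
    exact hx1 (Or.inr (by simp [← h1]))
  obtain ⟨y, hy1, hy2, hy3, hy4⟩ := hx
    ((fun b => g₀ * b⁻¹) '' B ∪ (fun b => b⁻¹ * g₀) '' B ∪
      (fun b => x⁻¹ * g * b * g₀⁻¹) '' B ∪ (fun b => x⁻¹ * g * g₀⁻¹ * b) '' B ∪
      {x⁻¹ * g₀, g₀ * x⁻¹, x⁻¹ * g * g₀⁻¹ * x, x⁻¹ * g * x * g₀⁻¹})
    (((((hB.image _).union (hB.image _)).union (hB.image _)).union (hB.image _)).union
      (Set.toFinite _))
  have y1 : ∀ b ∈ B, y * b ≠ g₀ := by
    intro b hb h1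
    exact hy1 (Or.inl (Or.inl (Or.inl (Or.inl ⟨b, hb, by simp [← h1]⟩))))
  have y2 : ∀ b ∈ B, b * y ≠ g₀ := by
    intro b hb h1
    exact hy1 (Or.inl (Or.inl (Or.inl (Or.inr ⟨b, hb, by simp [← h1]⟩))))
  have z1 : ∀ b ∈ B, ((x * y)⁻¹ * g) * b ≠ g₀ := by
    intro b hb h1
    refine hy1 (Or.inl (Or.inl (Or.inr ⟨b, hb, ?_⟩)))
    show x⁻¹ * g * b * g₀⁻¹ = y
    rw [← h1]; group
  have z2 : ∀ b ∈ B, b * ((x * y)⁻¹ * g) ≠ g₀ := by
    intro b hb h1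
    refine hy1 (Or.inl (Or.inr ⟨b, hb, ?_⟩))
    show x⁻¹ * g * g₀⁻¹ * b = y
    rw [← h1]; group
  have xy : x * y ≠ g₀ := by
    intro h1
    exact hy1 (Or.inr (by simp [← h1]))
  have yx : y * x ≠ g₀ := by
    intro h1
    exact hy1 (Or.inr (by simp [← h1]))
  have xz : x * ((x * y)⁻¹ * g) ≠ g₀ := by
    intro h1
    refine hy1 (Or.inr ?_)
    have : y = x⁻¹ * g * g₀⁻¹ * x := by rw [← h1]; group
    simp [← this]
  have zx : ((x * y)⁻¹ * g) * x ≠ g₀ := by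
    intro h1
    refine hy1 (Or.inr ?_)
    have : y = x⁻¹ * g * x * g₀⁻¹ := by rw [← h1]; group
    simp [← this]
  have yz : y * ((x * y)⁻¹ * g) ≠ g₀ := by
    intro h1
    exact x3 (by rw [← h1]; group)
  refine ⟨B ∪ {x, y, (x * y)⁻¹ * g}, hB.union (Set.toFinite _), Set.subset_union_left, ?_,
    x, Or.inr (by simp), y, Or.inr (by simp), (x * y)⁻¹ * g, Or.inr (by simp), by group⟩
  rintro a (ha | ha | ha | ha) b (hb | hb | hb | hb)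
  · exact hBB a ha b hb
  · rw [hb]; exact x2 a ha
  · rw [hb]; exact y2 a ha
  · rw [hb]; exact z2 a ha
  · rw [ha]; exact x1 b hb
  · rw [ha, hb]; exact hx2
  · rw [ha, hb]; exact xy
  · rw [ha, hb]; exact xz
  · rw [ha]; exact y1 b hb
  · rw [ha, hb]; exact yx
  · rw [ha, hb]; exact hy2
  · rw [ha, hb]; exact yz
  · rw [ha]; exact z1 b hb
  · rw [ha, hb]; exact zx
  · rw [ha, hb]; exact hy4
  · rw [ha, hb]; exact hy3

theorem exists_set [Countable G] {g₀ : G} (h : Good g₀) :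
    ∃ A : Set G, g₀ ∉ A * A ∧ A * A * A = Set.univ := by
  classical
  obtain ⟨e, he⟩ := exists_surjective_nat G
  let T := {B : Set G // B.Finite ∧ ∀ a ∈ B, ∀ b ∈ B, a * b ≠ g₀}
  have hstep : ∀ (B : T) (g : G), ∃ B' : T, B.1 ⊆ B'.1 ∧
      ∃ x ∈ B'.1, ∃ y ∈ B'.1, ∃ z ∈ B'.1, x * y * z = g := by
    intro B g
    obtain ⟨B', h1, h2, h3, h4⟩ := step h B.1 B.2.1 B.2.2 g
    exact ⟨⟨B', h1, h3⟩, h2, h4⟩
  choose f hf1 hf2 using hstep
  let S : ℕ → T := fun n => Nat.rec ⟨∅, Set.finite_empty, by simp⟩ (fun k B => f B (e k)) n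
  have hS : ∀ n, S (n + 1) = f (S n) (e n) := fun n => rfl
  have hmono : Monotone (fun n => (S n).1) := by
    refine monotone_nat_of_le_succ fun n => ?_
    show (S n).1 ≤ (S (n + 1)).1
    rw [hS]
    exact hf1 _ _
  refine ⟨⋃ n, (S n).1, ?_, ?_⟩
  · rintro ⟨a, ha, b, hb, hab⟩
    obtain ⟨i, hi⟩ := Set.mem_iUnion.1 ha
    obtain ⟨j, hj⟩ := Set.mem_iUnion.1 hb
    exact (S (max i j)).2.2 a (hmono (le_max_left i j) hi) b (hmono (le_max_right i j) hj) hab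
  · refine Set.eq_univ_of_forall fun g => ?_
    obtain ⟨n, rfl⟩ := he g
    obtain ⟨x, hx, y, hy, z, hz, h1⟩ := hf2 (S n) (e n)
    rw [← hS] at hx hy hz
    refine ⟨x * y, ⟨x, Set.mem_iUnion.2 ⟨n + 1, hx⟩, y, Set.mem_iUnion.2 ⟨n + 1, hy⟩, rfl⟩, z,
      Set.mem_iUnion.2 ⟨n + 1, hz⟩, h1⟩

end Pool.Agent.V5helper44.PI
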