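import Mathlib
import Pool.Agent.V5helper44.PI.Greedy

set_option autoImplicit false

/-!
# Product intersection sets: every infinite group has a suitable element `g₀`
-/

namespace Pool.Agent.V5helper44.PI

universe u

variable {G : Type u} [Group G]

/-- conjugates of `w` by almost all elements cannot be equal to `g₀ ≠ w` -/
theorem conj_avoid [Infinite G] {g₀ w : G} (hw : w ≠ g₀) (K : Set G) (hK : K.Finite) :
    ∃ y, y ∉ K ∧ y⁻¹ * w * y ≠ g₀ := by
  by_contra hcon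
  push Not at hcon
  have h1 : ∀ c : G, c⁻¹ * g₀ * c = g₀ := by
    intro c
    obtain ⟨y, hy⟩ := ((hK.union (hK.image (fun k => k * c⁻¹))).exists_notMem)
    have hy1 : y ∉ K := fun h => hy (Or.inl h)
    have hy2 : y * c ∉ K := fun h => hy (Or.inr ⟨y * c, h, by simp⟩)
    have e1 := hcon y hy1
    have e2 := hcon (y * c) hy2
    calc c⁻¹ * g₀ * c = c⁻¹ * (y⁻¹ * w * y) * c := by rw [e1]
      _ = (y * c)⁻¹ * w * (y * c) := by group
      _ = g₀ := e2
  obtain ⟨y, hy⟩ := hK.exists_notMem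
  apply hw
  have e1 := hcon y hy
  have e2 := h1 y⁻¹
  rw [inv_inv] at e2
  calc w = y * (y⁻¹ * w * y) * y⁻¹ := by group
    _ = y * g₀ * y⁻¹ := by rw [e1]
    _ = g₀ := e2

theorem zy_eq (x y g : G) : ((x * y)⁻¹ * g) * y = y⁻¹ * (x⁻¹ * g) * y := by group

/-- the case of a non-square -/
theorem good_of_nonsquare [Infinite G] {g₀ : G} (h : ∀ x : G, x * x ≠ g₀) : Good g₀ := by
  intro g K₁ hK₁
  obtain ⟨x, hx⟩ := (hK₁.union (Set.finite_singleton (g * g₀⁻¹))).exists_notMem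
  refine ⟨x, fun h1 => hx (Or.inl h1), h x, fun K₂ hK₂ => ?_⟩
  have hw : x⁻¹ * g ≠ g₀ := by
    intro h1
    exact hx (Or.inr (by simp [← h1]))
  obtain ⟨y, hy1, hy2⟩ := conj_avoid hw K₂ hK₂
  exact ⟨y, hy1, h y, h _, by rw [zy_eq]; exact hy2⟩

theorem mem_cent {g₀ x : G} : x ∈ Subgroup.centralizer {g₀} ↔ g₀ * x = x * g₀ := by
  rw [Subgroup.mem_centralizer_singleton_iff]
  exact ⟨fun h => h.symm, fun h => h.symm⟩

theorem sq_mem {g₀ x : G} (h : x * x = g₀) : x ∈ Subgroup.centralizer {g₀} := by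
  rw [mem_cent, ← h]; group

/-- the case of a centralizer of infinite index -/
theorem good_of_infinite_index {g₀ : G} (h : (Subgroup.centralizer {g₀}).index = 0) :
    Good g₀ := by
  set C := Subgroup.centralizer {g₀} with hC
  have : Infinite (G ⧸ C) := by
    rw [← not_finite_iff_infinite]
    intro hf
    have h1 : 0 < Nat.card (G ⧸ C) := Nat.card_pos
    rw [← Subgroup.index_eq_card, h] at h1
    exact lt_irrefl _ h1
  have key : ∀ F : Set (G ⧸ C), F.Finite → ∃ y : G, (y : G ⧸ C) ∉ F := by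
    intro F hF
    obtain ⟨q, hq⟩ := hF.exists_notMem
    obtain ⟨y, rfl⟩ := QuotientGroup.mk_surjective q
    exact ⟨y, hq⟩
  intro g K₁ hK₁
  obtain ⟨x, hx⟩ := key ((fun k : G => (k : G ⧸ C)) '' K₁ ∪ {((1 : G) : G ⧸ C)})
    ((hK₁.image _).union (Set.finite_singleton _))
  refine ⟨x, fun h1 => hx (Or.inl ⟨x, h1, rfl⟩), fun h1 => hx (Or.inr ?_), fun K₂ hK₂ => ?_⟩
  · have := sq_mem h1
    rw [Set.mem_singleton_iff, eq_comm, QuotientGroup.eq]
    simpa using this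
  · obtain ⟨y₀, hy₀⟩ : ∃ y₀ : G, ∀ y : G, y⁻¹ * (x⁻¹ * g) * y = g₀ → (y : G ⧸ C) = y₀ := by
      by_cases hex : ∃ y₀ : G, y₀⁻¹ * (x⁻¹ * g) * y₀ = g₀
      · obtain ⟨y₀, h0⟩ := hex
        refine ⟨y₀, fun y hy => ?_⟩
        rw [eq_comm, QuotientGroup.eq, mem_cent]
        have e1 : x⁻¹ * g = y * g₀ * y⁻¹ := by rw [← hy]; group
        rw [e1] at h0
        calc g₀ * (y₀⁻¹ * y) = (y₀⁻¹ * (y * g₀ * y⁻¹) * y₀) * (y₀⁻¹ * y) := by rw [h0]
          _ = y₀⁻¹ * y * g₀ := by group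
      · exact ⟨1, fun y hy => absurd ⟨y, hy⟩ hex⟩
    obtain ⟨y, hy⟩ := key ((fun k : G => (k : G ⧸ C)) '' K₂ ∪
        {((1 : G) : G ⧸ C), ((x⁻¹ * g : G) : G ⧸ C), (y₀ : G ⧸ C)})
      ((hK₂.image _).union (Set.toFinite _))
    refine ⟨y, fun h1 => hy (Or.inl ⟨y, h1, rfl⟩), fun h1 => hy (Or.inr (Or.inl ?_)),
      fun h1 => hy (Or.inr (Or.inr (Or.inl ?_))), fun h1 => hy (Or.inr (Or.inr (Or.inr ?_)))⟩
    · have := sq_mem h1
      rw [eq_comm, QuotientGroup.eq]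
      simpa using this
    · have := C.inv_mem (sq_mem h1)
      rw [eq_comm, QuotientGroup.eq]
      have e : (x⁻¹ * g)⁻¹ * y = ((x * y)⁻¹ * g)⁻¹ := by group
      rw [e]
      exact this
    · rw [zy_eq] at h1
      exact hy₀ y h1

/-- the case of a centralizer of finite index at least three -/
theorem good_of_finite_index [Infinite G] {g₀ : G}
    (h : 3 ≤ (Subgroup.centralizer {g₀}).index) : Good g₀ := by
  set C := Subgroup.centralizer {g₀} with hC
  have : C.FiniteIndex := ⟨by omega⟩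
  have : Finite (G ⧸ C) := inferInstance
  -- the conjugacy class is finite
  have hcl : (Set.range fun y : G => y * g₀ * y⁻¹).Finite := by
    let f : G ⧸ C → G := Quotient.lift (fun y : G => y * g₀ * y⁻¹) (by
      intro a b hab
      have h1 : a⁻¹ * b ∈ C := QuotientGroup.leftRel_apply.1 hab
      rw [mem_cent] at h1
      show a * g₀ * a⁻¹ = b * g₀ * b⁻¹
      calc a * g₀ * a⁻¹ = a * (g₀ * (a⁻¹ * b)) * b⁻¹ := by group
        _ = a * ((a⁻¹ * b) * g₀) * b⁻¹ := by rw [h1]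
        _ = b * g₀ * b⁻¹ := by group)
    refine (Set.finite_range f).subset ?_
    rintro _ ⟨y, rfl⟩
    exact ⟨(y : G ⧸ C), rfl⟩
  -- every coset is infinite
  have hCinf : Infinite C := by
    rw [← not_finite_iff_infinite]
    intro hf
    have : Finite G := by
      have h1 := C.card_mul_index
      have h2 : Nat.card G ≠ 0 := by
        rw [← h1]
        exact mul_ne_zero Nat.card_pos.ne' (by omega)
      exact (Nat.card_ne_zero.1 h2).2
    exact not_finite G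
  have key : ∀ (q : G ⧸ C) (K : Set G), K.Finite → ∃ y : G, y ∉ K ∧ (y : G ⧸ C) = q := by
    intro q K hK
    obtain ⟨r, rfl⟩ := QuotientGroup.mk_surjective q
    obtain ⟨c, hc⟩ := (hK.preimage (f := fun c : C => r * (c : G))
      (by intro a _ b _ hab; exact Subtype.ext (mul_left_cancel hab))).exists_notMem
    refine ⟨r * c, hc, ?_⟩
    rw [eq_comm, QuotientGroup.eq]
    simp
  have hcard : 3 ≤ Nat.card (G ⧸ C) := h
  have pick : ∀ a b : G ⧸ C, ∃ q : G ⧸ C, q ≠ a ∧ q ≠ b := by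
    intro a b
    classical
    have := Fintype.ofFinite (G ⧸ C)
    rw [Nat.card_eq_fintype_card] at hcard
    obtain ⟨q, hq⟩ : ∃ q, q ∉ ({a, b} : Finset (G ⧸ C)) := by
      by_contra hcon
      push Not at hcon
      have h1 : Fintype.card (G ⧸ C) ≤ ({a, b} : Finset (G ⧸ C)).card :=
        Finset.card_le_card (fun q _ => hcon q)
      have h2 := Finset.card_le_two (a := a) (b := b)
      omega
    simp only [Finset.mem_insert, Finset.mem_singleton, not_or] at hq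
    exact ⟨q, hq.1, hq.2⟩
  intro g K₁ hK₁
  obtain ⟨q, hq, -⟩ := pick ((1 : G) : G ⧸ C) ((1 : G) : G ⧸ C)
  obtain ⟨x, hx1, hx2⟩ := key q (K₁ ∪ (fun c => g * c⁻¹) '' (Set.range fun y : G => y * g₀ * y⁻¹))
    (hK₁.union (hcl.image _))
  refine ⟨x, fun h1 => hx1 (Or.inl h1), fun h1 => hq ?_, fun K₂ hK₂ => ?_⟩
  · have := sq_mem h1
    rw [← hx2, eq_comm, QuotientGroup.eq]
    simpa using this
  · obtain ⟨q', hq1, hq2⟩ := pick ((1 : G) : G ⧸ C) ((x⁻¹ * g : G) : G ⧸ C)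
    obtain ⟨y, hy1, hy2⟩ := key q' K₂ hK₂
    refine ⟨y, hy1, fun h1 => hq1 ?_, fun h1 => hq2 ?_, fun h1 => ?_⟩
    · have := sq_mem h1
      rw [← hy2, eq_comm, QuotientGroup.eq]
      simpa using this
    · have := C.inv_mem (sq_mem h1)
      rw [← hy2, eq_comm, QuotientGroup.eq]
      have e : (x⁻¹ * g)⁻¹ * y = ((x * y)⁻¹ * g)⁻¹ := by group
      rw [e]
      exact this
    · rw [zy_eq] at h1
      refine hx1 (Or.inr ⟨y * g₀ * y⁻¹, ⟨y, rfl⟩, ?_⟩)
      show g * (y * g₀ * y⁻¹)⁻¹ = x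
      rw [← h1]; group

/-- the case of a commutative group all of whose elements are squares -/
theorem good_one [Infinite G] (hc : ∀ a b : G, a * b = b * a) (hs : ∀ a : G, ∃ x, x * x = a) :
    Good (1 : G) := by
  choose r hr using hs
  intro g K₁ hK₁
  obtain ⟨v, hv⟩ := (((hK₁.union (Set.finite_singleton g)).image (fun x => x * x)).union
    (Set.finite_singleton (1 : G))).exists_notMem
  have hx : ∀ a ∈ K₁ ∪ {g}, r v ≠ a := by
    intro a ha h1
    exact hv (Or.inl ⟨a, ha, by show a * a = v; rw [← h1, hr]⟩)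
  refine ⟨r v, fun h1 => hx _ (Or.inl h1) rfl, ?_, fun K₂ hK₂ => ?_⟩
  · rw [hr]
    intro h1
    exact hv (Or.inr h1)
  · obtain ⟨w, hw⟩ := ((hK₂.image (fun x => x * x)).union
      (Set.toFinite {(1 : G), ((r v)⁻¹ * g) * ((r v)⁻¹ * g)})).exists_notMem
    refine ⟨r w, fun h1 => hw (Or.inl ⟨_, h1, hr w⟩), ?_, fun h1 => hw (Or.inr (Or.inr ?_)),
      fun h1 => ?_⟩
    · rw [hr]
      intro h1
      exact hw (Or.inr (Or.inl h1))
    · show w = ((r v)⁻¹ * g) * ((r v)⁻¹ * g)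
      have e1 : (r v * r w)⁻¹ * g = (r w)⁻¹ * ((r v)⁻¹ * g) := by group
      rw [e1] at h1
      have e2 : (r w)⁻¹ * ((r v)⁻¹ * g) * ((r w)⁻¹ * ((r v)⁻¹ * g)) =
          (r w * r w)⁻¹ * (((r v)⁻¹ * g) * ((r v)⁻¹ * g)) := by
        rw [hc ((r w)⁻¹ * ((r v)⁻¹ * g)) ((r w)⁻¹ * ((r v)⁻¹ * g))]
        calc (r w)⁻¹ * ((r v)⁻¹ * g) * ((r w)⁻¹ * ((r v)⁻¹ * g))
            = (r w)⁻¹ * (((r v)⁻¹ * g) * (r w)⁻¹) * ((r v)⁻¹ * g) := by group
          _ = (r w)⁻¹ * ((r w)⁻¹ * ((r v)⁻¹ * g)) * ((r v)⁻¹ * g) := by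
              rw [hc ((r v)⁻¹ * g) (r w)⁻¹]
          _ = (r w * r w)⁻¹ * (((r v)⁻¹ * g) * ((r v)⁻¹ * g)) := by group
      rw [e2, hr, inv_mul_eq_one] at h1
      exact h1
    · rw [zy_eq, hc ((r w)⁻¹ * ((r v)⁻¹ * g)) (r w), mul_inv_cancel_left,
        inv_mul_eq_one] at h1
      exact hx g (Or.inr rfl) h1

/-- every infinite group has a good element -/
theorem exists_good (G : Type u) [Group G] [Infinite G] : ∃ g₀ : G, Good g₀ := by
  by_cases h1 : ∃ g₀ : G, ∀ x : G, x * x ≠ g₀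
  · obtain ⟨g₀, h⟩ := h1
    exact ⟨g₀, good_of_nonsquare h⟩
  push Not at h1
  by_cases h2 : ∃ g₀ : G, (Subgroup.centralizer {g₀}).index = 0 ∨
      3 ≤ (Subgroup.centralizer {g₀}).index
  · obtain ⟨g₀, h | h⟩ := h2
    · exact ⟨g₀, good_of_infinite_index h⟩
    · exact ⟨g₀, good_of_finite_index h⟩
  push Not at h2
  refine ⟨1, good_one (fun a b => ?_) h1⟩
  obtain ⟨x, rfl⟩ := h1 a
  obtain ⟨h3, h4⟩ := h2 b
  have h5 : x * x ∈ Subgroup.centralizer {b} := by
    rcases (show (Subgroup.centralizer {b}).index = 1 ∨ (Subgroup.centralizer {b}).index = 2 by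
      omega) with h | h
    · rw [Subgroup.index_eq_one.1 h]; trivial
    · exact Subgroup.mul_self_mem_of_index_two h x
  rw [mem_cent] at h5
  exact h5.symm

end Pool.Agent.V5helper44.PI
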